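import Mathlib
import Pool.Agent.helper50.MA.Spec1

/-!
# Project ma, module B9: the homogeneous Dirichlet problem on every ball, continuous data.
-/

set_option autoImplicit false

open MeasureTheory Set Filter Topology Complex
open scoped ContDiff Real

namespace MAP

noncomputable section

/-- epsilon-delta form of vanishing Monge-Ampere mass -/
def B9_Q (U : Set C2) (u : C2 → ℝ) : Prop :=
  ∀ h : C2 → ℝ, ContDiff ℝ ∞ h → HasCompactSupport h → tsupport h ⊆ U →
    ∀ V : Set C2, IsOpen V → tsupport h ⊆ V → V ⊆ U → ∀ ε : ℝ, 0 < ε →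
      ∃ δ : ℝ, 0 < δ ∧ ∀ w : C2 → ℝ, ContDiffOn ℝ ∞ w V → PshOn V w → (∀ x ∈ V, |w x - u x| ≤ δ) →
        |∫ x, h x * dens w w x| ≤ ε

theorem B9_nsq_cont : Continuous nsq := by
  unfold nsq
  exact ((continuous_fst.norm).pow 2).add ((continuous_snd.norm).pow 2)

theorem B9_bal_open (c : C2) (r : ℝ) : IsOpen (bal c r) := by
  unfold bal
  exact isOpen_lt (B9_nsq_cont.comp (continuous_id.sub continuous_const)) continuous_const

theorem B9_cbal_closed (c : C2) (r : ℝ) : IsClosed (cbal c r) := by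
  unfold cbal
  exact isClosed_le (B9_nsq_cont.comp (continuous_id.sub continuous_const)) continuous_const

theorem B9_sph_closed (c : C2) (r : ℝ) : IsClosed (sph c r) := by
  unfold sph
  exact isClosed_eq (B9_nsq_cont.comp (continuous_id.sub continuous_const)) continuous_const

theorem B9_nsq_nonneg (x : C2) : 0 ≤ nsq x := by unfold nsq; positivity

theorem B9_norm_le (x : C2) : ‖x‖ ^ 2 ≤ nsq x := by
  unfold nsq
  rcases le_total ‖x.1‖ ‖x.2‖ with h | h
  · rw [Prod.norm_def, max_eq_right h]; nlinarith [sq_nonneg ‖x.1‖]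
  · rw [Prod.norm_def, max_eq_left h]; nlinarith [sq_nonneg ‖x.2‖]

theorem B9_cbal_compact (c : C2) (r : ℝ) : IsCompact (cbal c r) := by
  apply Metric.isCompact_of_isClosed_isBounded (B9_cbal_closed c r)
  apply (Metric.isBounded_iff_subset_closedBall c).2
  refine ⟨|r|, fun x hx => ?_⟩
  rw [Metric.mem_closedBall, dist_eq_norm]
  have h1 : nsq (x - c) ≤ r ^ 2 := hx
  have h2 := B9_norm_le (x - c)
  exact abs_le_of_sq_le_sq' (by rw [sq_abs]; linarith) (abs_nonneg r) |>.2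

theorem B9_bal_sub (c : C2) (r : ℝ) : bal c r ⊆ cbal c r := fun _ hx => by
  have h : nsq _ < _ := hx
  exact h.le
theorem B9_sph_sub (c : C2) (r : ℝ) : sph c r ⊆ cbal c r := fun _ hx => by
  have h : nsq _ = _ := hx
  exact h.le

theorem B9_bdd (u : C2 → ℝ) (hu : ContinuousOn u (cbal 0 1)) :
    ∃ m : ℝ, 0 ≤ m ∧ ∀ x ∈ cbal 0 1, |u x| ≤ m := by
  obtain ⟨m, hm⟩ := (B9_cbal_compact 0 1).exists_bound_of_continuousOn hu
  refine ⟨max m 0, le_max_right _ _, fun x hx => le_trans ?_ (le_max_left _ _)⟩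
  have := hm x hx
  rwa [Real.norm_eq_abs] at this

/-- smooth boundary data on the unit ball -/
theorem B9_smooth (hA1 : A1_stmt) (hB1 : B1_stmt) (hB3 : B3_stmt) (hB4 : B4_stmt) (hB5 : B5_stmt)
    (hB6 : B6_stmt) (hB8 : B8_stmt) (g : C2 → ℝ) (hg : ContDiff ℝ ∞ g) :
    ∃ u : C2 → ℝ, IsPerron g 0 1 u ∧ B9_Q (bal 0 1) u := by
  obtain ⟨u, C₀, hC₀, hP, -, -⟩ := hB1 g hg
  refine ⟨u, hP, ?_⟩
  have hsemi := hB3 g u hg hP
  obtain ⟨hcont, hpsh, hbd, hmax⟩ := hP
  have hPu : IsPerron u 0 1 u :=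
    ⟨hcont, hpsh, fun x _ => rfl, fun v hv => hmax v ⟨hv.1, hv.2.1, fun x hx =>
      (hv.2.2 x hx).trans_eq (hbd x hx)⟩⟩
  obtain ⟨G, hG1, hG2⟩ := hB4 u hpsh hsemi
  have hdeg := hB5 u G hPu hG1
  intro h hh hc hs V hV hsV hVU ε hε
  obtain ⟨V0, w0, hV0, hsV0, hV0U, hw0, hw0psh, hunif, hint⟩ := hB6 u G hpsh hG1 hG2 hdeg h hh hc hs
  obtain ⟨C, hC, hB⟩ := hB8 (bal 0 1) (V ∩ V0) h (B9_bal_open 0 1) (hV.inter hV0)
    (inter_subset_left.trans hVU) hh hc (subset_inter hsV hsV0)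
  obtain ⟨m, hm0, hm⟩ := B9_bdd u hcont
  have hD : 0 < C * (m + 1) + 1 := by positivity
  set δ : ℝ := min 1 (ε / (4 * (C * (m + 1) + 1))) with hδdef
  have hδ : 0 < δ := lt_min one_pos (by positivity)
  have hδ1 : δ ≤ 1 := min_le_left _ _
  have hδ2 : C * (m + 1) * (2 * δ) ≤ ε / 2 := by
    have h1 : δ ≤ ε / (4 * (C * (m + 1) + 1)) := min_le_right _ _
    have h2 : δ * (4 * (C * (m + 1) + 1)) ≤ ε := by
      rwa [le_div_iff₀ (by positivity)] at h1
    nlinarith
  have he1 : ∀ᶠ n in atTop, ∀ x ∈ V0, |w0 n x - u x| ≤ δ := by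
    rw [Metric.tendstoUniformlyOn_iff] at hunif
    filter_upwards [hunif δ hδ] with n hn x hx
    have := hn x hx
    rw [Real.dist_eq, abs_sub_comm] at this
    exact this.le
  have he2 : ∀ᶠ n in atTop, |∫ x, h x * dens (w0 n) (w0 n) x| ≤ ε / 2 := by
    rw [Metric.tendsto_nhds] at hint
    filter_upwards [hint (ε / 2) (by positivity)] with n hn
    rw [Real.dist_eq, sub_zero] at hn
    exact hn.le
  obtain ⟨n, hn1, hn2⟩ := (he1.and he2).exists
  refine ⟨δ, hδ, fun w hw hwpsh hwu => ?_⟩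
  have hmem : ∀ x ∈ V ∩ V0, |u x| ≤ m := fun x hx => hm x (B9_bal_sub 0 1 (hVU hx.1))
  have key := hB w (w0 n) (m + 1) (2 * δ) (hw.mono inter_subset_left) ((hw0 n).contDiffOn)
    ((hA1 V hV w w hwpsh hwpsh).2.2.2.2.1 _ inter_subset_left)
    ((hA1 V0 hV0 (w0 n) (w0 n) (hw0psh n) (hw0psh n)).2.2.2.2.1 _ inter_subset_right)
    (fun x hx => by
      have h1 := hwu x hx.1
      have h2 := hmem x hx
      have h3 : |w x| ≤ |w x - u x| + |u x| := by
        have := abs_add_le (w x - u x) (u x)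
        rwa [sub_add_cancel] at this
      linarith)
    (fun x hx => by
      have h1 := hn1 x hx.2
      have h2 := hmem x hx
      have h3 : |w0 n x| ≤ |w0 n x - u x| + |u x| := by
        have := abs_add_le (w0 n x - u x) (u x)
        rwa [sub_add_cancel] at this
      linarith)
    (fun x hx => by
      have h1 := hwu x hx.1
      have h2 := hn1 x hx.2
      have h3 : |w x - w0 n x| ≤ |w x - u x| + |w0 n x - u x| := by
        have := abs_sub (w x - u x) (w0 n x - u x)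
        rwa [sub_sub_sub_cancel_right] at this
      linarith)
  have h4 : |∫ x, h x * dens w w x| ≤
      |(∫ x, h x * dens w w x) - ∫ x, h x * dens (w0 n) (w0 n) x| + |∫ x, h x * dens (w0 n) (w0 n) x| := by
    have := abs_add_le ((∫ x, h x * dens w w x) - ∫ x, h x * dens (w0 n) (w0 n) x)
      (∫ x, h x * dens (w0 n) (w0 n) x)
    rwa [sub_add_cancel] at this
  linarith

/-- stability of the epsilon-delta property under uniform limits -/
theorem B9_lim (hA1 : A1_stmt) (hA5 : A5_stmt) (hB8 : B8_stmt) (u : C2 → ℝ) (m : ℝ) (hm0 : 0 ≤ m)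
    (hm : ∀ x ∈ bal 0 1, |u x| ≤ m)
    (happ : ∀ η : ℝ, 0 < η → ∃ u' : C2 → ℝ, PshOn (bal 0 1) u' ∧ B9_Q (bal 0 1) u' ∧
      ∀ x ∈ bal 0 1, |u' x - u x| ≤ η) : B9_Q (bal 0 1) u := by
  intro h hh hc hs V hV hsV hVU ε hε
  obtain ⟨K, hK, hsK, hKV⟩ := exists_compact_between hc hV hsV
  have hIV : interior K ⊆ V := interior_subset.trans hKV
  obtain ⟨C, hC, hB⟩ := hB8 (bal 0 1) (interior K) h (B9_bal_open 0 1) isOpen_interior
    (hIV.trans hVU) hh hc hsK
  have hD : 0 < C * (m + 3) + 1 := by positivity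
  set η : ℝ := min 1 (ε / (6 * (C * (m + 3) + 1))) with hηdef
  have hη : 0 < η := lt_min one_pos (by positivity)
  have hη1 : η ≤ 1 := min_le_left _ _
  have hη2 : C * (m + 3) * (3 * η) ≤ ε / 2 := by
    have h1 : η ≤ ε / (6 * (C * (m + 3) + 1)) := min_le_right _ _
    have h2 : η * (6 * (C * (m + 3) + 1)) ≤ ε := by
      rwa [le_div_iff₀ (by positivity)] at h1
    nlinarith
  obtain ⟨u', hpsh', hQ', hd'⟩ := happ η hη
  obtain ⟨δ', hδ', hw'⟩ := hQ' h hh hc hs (interior K) isOpen_interior hsK (hIV.trans hVU) (ε / 2)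
    (by positivity)
  obtain ⟨w', Vw, hw's, hVw, hKVw, hVwU, hw'p, hw'c⟩ := hA5 (bal 0 1) K u' (min δ' η)
    (B9_bal_open 0 1) hpsh' hK (hKV.trans hVU) (lt_min hδ' hη)
  have hIVw : interior K ⊆ Vw := interior_subset.trans hKVw
  have I1 : |∫ x, h x * dens w' w' x| ≤ ε / 2 := hw' w' hw's.contDiffOn
    ((hA1 Vw hVw w' w' hw'p hw'p).2.2.2.2.1 _ hIVw)
    (fun x hx => (hw'c x (hIVw hx)).trans (min_le_left _ _))
  refine ⟨η, hη, fun w hw hwpsh hwu => ?_⟩
  have key := hB w w' (m + 3) (3 * η) (hw.mono hIV) hw's.contDiffOn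
    ((hA1 V hV w w hwpsh hwpsh).2.2.2.2.1 _ hIV)
    ((hA1 Vw hVw w' w' hw'p hw'p).2.2.2.2.1 _ hIVw)
    (fun x hx => by
      have h1 := hwu x (hIV hx)
      have h2 := hm x (hVU (hIV hx))
      have h3 : |w x| ≤ |w x - u x| + |u x| := by
        have := abs_add_le (w x - u x) (u x)
        rwa [sub_add_cancel] at this
      linarith)
    (fun x hx => by
      have h1 := (hw'c x (hIVw hx)).trans (min_le_right _ _)
      have h1' := hd' x (hVU (hIV hx))
      have h2 := hm x (hVU (hIV hx))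
      have h3 : |w' x| ≤ |w' x - u' x| + |u' x - u x| + |u x| := by
        have := abs_add_three (w' x - u' x) (u' x - u x) (u x)
        have e : w' x - u' x + (u' x - u x) + u x = w' x := by ring
        rwa [e] at this
      linarith)
    (fun x hx => by
      have h1 := (hw'c x (hIVw hx)).trans (min_le_right _ _)
      have h1' := hd' x (hVU (hIV hx))
      have h2 := hwu x (hIV hx)
      have h3 : |w x - w' x| ≤ |w x - u x| + |u x - u' x| + |u' x - w' x| := by
        have := abs_add_three (w x - u x) (u x - u' x) (u' x - w' x)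
        have e : w x - u x + (u x - u' x) + (u' x - w' x) = w x - w' x := by ring
        rwa [e] at this
      rw [abs_sub_comm (u x) (u' x), abs_sub_comm (u' x) (w' x)] at h3
      linarith)
  have h4 : |∫ x, h x * dens w w x| ≤
      |(∫ x, h x * dens w w x) - ∫ x, h x * dens w' w' x| + |∫ x, h x * dens w' w' x| := by
    have := abs_add_le ((∫ x, h x * dens w w x) - ∫ x, h x * dens w' w' x)
      (∫ x, h x * dens w' w' x)
    rwa [sub_add_cancel] at this
  linarith

theorem B9_Q_MAzero (U : Set C2) (hU : IsOpen U) (u : C2 → ℝ) (hQ : B9_Q U u) : MAzero U u := by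
  intro h hh hc hs w hw hwp hunif
  obtain ⟨K, hK, hsK, hKV⟩ := exists_compact_between hc hU hs
  rw [Metric.tendsto_nhds]
  intro ε hε
  obtain ⟨δ, hδ, hδw⟩ := hQ h hh hc hs (interior K) isOpen_interior hsK (interior_subset.trans hKV)
    (ε / 2) (by positivity)
  have := hunif K hKV hK
  rw [Metric.tendstoUniformlyOn_iff] at this
  filter_upwards [this δ hδ] with n hn
  rw [Real.dist_eq, sub_zero]
  have hr : PshOn (interior K) (w n) :=
    ⟨(hwp n).1.mono (interior_subset.trans hKV),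
      fun x ξ hx => (hwp n).2 x ξ (hx.trans (interior_subset.trans hKV))⟩
  have := hδw (w n) ((hw n).mono (interior_subset.trans hKV)) hr (fun x hx => by
    have := hn x (interior_subset hx)
    rw [Real.dist_eq, abs_sub_comm] at this
    exact this.le)
  linarith

/-- continuous boundary data on the unit ball -/
theorem B9_unit (hA1 : A1_stmt) (hA2 : A2_stmt) (hA5 : A5_stmt) (hB1 : B1_stmt) (hB3 : B3_stmt)
    (hB4 : B4_stmt) (hB5 : B5_stmt) (hB6 : B6_stmt) (hB8 : B8_stmt) (g : C2 → ℝ)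
    (hg : ContinuousOn g (sph 0 1)) :
    ∃ u : C2 → ℝ, IsPerron g 0 1 u ∧ MAzero (bal 0 1) u := by
  obtain ⟨G, hG⟩ := ContinuousMap.exists_restrict_eq (B9_sph_closed 0 1)
    (⟨(sph 0 1).domRestrict g, hg.domRestrict⟩ : C(sph 0 1, ℝ))
  have hGg : ∀ x ∈ sph 0 1, G x = g x := fun x hx => by
    have := DFunLike.congr_fun hG ⟨x, hx⟩
    exact this
  have happ : ∀ k : ℕ, ∃ gk : C2 → ℝ, ContDiff ℝ ∞ gk ∧ ∀ x, |gk x - G x| < 1 / ((k : ℝ) + 1) := by
    intro k
    obtain ⟨gk, h1, h2, -⟩ := (G.continuous).exists_contDiff_approx (ε := fun _ => 1 / ((k : ℝ) + 1)) ⊤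
      continuous_const (fun _ => by positivity)
    exact ⟨gk, h1, fun x => by simpa [Real.dist_eq] using h2 x⟩
  choose gk hgk1 hgk2 using happ
  have hsm := fun k => B9_smooth hA1 hB1 hB3 hB4 hB5 hB6 hB8 (gk k) (hgk1 k)
  choose U hUP hUQ using hsm
  have hball := B9_bal_open 0 1
  -- comparison
  have hcmp : ∀ k l : ℕ, ∀ x ∈ cbal 0 1, U l x - (1 / ((k : ℝ) + 1) + 1 / ((l : ℝ) + 1)) ≤ U k x := by
    intro k l x hx
    refine (hUP k).2.2.2 (fun x => U l x - (1 / ((k : ℝ) + 1) + 1 / ((l : ℝ) + 1))) ⟨?_, ?_, ?_⟩ x hx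
    · exact (hUP l).1.sub continuousOn_const
    · have := (hA1 _ hball (U l) (U l) (hUP l).2.1 (hUP l).2.1).2.2.2.1
        (-(1 / ((k : ℝ) + 1) + 1 / ((l : ℝ) + 1)))
      simpa [sub_eq_add_neg] using this
    · intro y hy
      show U l y - _ ≤ _
      rw [(hUP l).2.2.1 y hy]
      have h1 := hgk2 k y
      have h2 := hgk2 l y
      rw [abs_lt] at h1 h2
      linarith [h1.1, h2.2]
  have hcmp2 : ∀ k l : ℕ, ∀ x ∈ cbal 0 1, |U l x - U k x| ≤ 1 / ((k : ℝ) + 1) + 1 / ((l : ℝ) + 1) := by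
    intro k l x hx
    rw [abs_le]
    have h1 := hcmp k l x hx
    have h2 := hcmp l k x hx
    constructor <;> linarith
  have hlim0 : Tendsto (fun n : ℕ => 1 / ((n : ℝ) + 1)) atTop (𝓝 0) := tendsto_one_div_add_atTop_nhds_zero_nat
  have hcau : ∀ x ∈ cbal 0 1, CauchySeq (fun k => U k x) := by
    intro x hx
    rw [Metric.cauchySeq_iff']
    intro ε hε
    obtain ⟨N, hN⟩ := exists_nat_one_div_lt (show (0 : ℝ) < ε / 2 by positivity)
    refine ⟨N, fun n hn => ?_⟩
    rw [Real.dist_eq]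
    have h1 := hcmp2 N n x hx
    have h2 : 1 / ((n : ℝ) + 1) ≤ 1 / ((N : ℝ) + 1) := by
      apply one_div_le_one_div_of_le (by positivity)
      have : (N : ℝ) ≤ n := by exact_mod_cast hn
      linarith
    linarith
  set u : C2 → ℝ := fun x => limUnder atTop (fun k => U k x) with hu
  have hlim : ∀ x ∈ cbal 0 1, Tendsto (fun k => U k x) atTop (𝓝 (u x)) :=
    fun x hx => (hcau x hx).tendsto_limUnder
  have hclose : ∀ k : ℕ, ∀ x ∈ cbal 0 1, |U k x - u x| ≤ 1 / ((k : ℝ) + 1) := by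
    intro k x hx
    have h1 : Tendsto (fun l => |U k x - U l x|) atTop (𝓝 |U k x - u x|) :=
      (tendsto_const_nhds.sub (hlim x hx)).abs
    have h2 : Tendsto (fun l : ℕ => 1 / ((l : ℝ) + 1) + 1 / ((k : ℝ) + 1)) atTop (𝓝 (0 + 1 / ((k : ℝ) + 1))) :=
      hlim0.add tendsto_const_nhds
    rw [zero_add] at h2
    exact le_of_tendsto_of_tendsto' h1 h2 (fun l => hcmp2 l k x hx)
  have hunif : TendstoUniformlyOn U u atTop (cbal 0 1) := by
    rw [Metric.tendstoUniformlyOn_iff]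
    intro ε hε
    filter_upwards [(tendsto_order.1 hlim0).2 ε hε] with n hn x hx
    rw [Real.dist_eq, abs_sub_comm]
    exact lt_of_le_of_lt (hclose n x hx) hn
  have hucont : ContinuousOn u (cbal 0 1) :=
    hunif.continuousOn (Frequently.of_forall fun n => (hUP n).1)
  have hupsh : PshOn (bal 0 1) u := hA2.2 (bal 0 1) U u hball (fun n => (hUP n).2.1)
    (fun K hK _ => hunif.mono (hK.trans (B9_bal_sub 0 1)))
  obtain ⟨m, hm0, hm⟩ := B9_bdd u hucont
  refine ⟨u, ⟨hucont, hupsh, ?_, ?_⟩, ?_⟩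
  · intro x hx
    have h1 := hlim x (B9_sph_sub 0 1 hx)
    have h2 : Tendsto (fun k => U k x) atTop (𝓝 (g x)) := by
      have h3 : Tendsto (fun k => gk k x) atTop (𝓝 (g x)) := by
        rw [Metric.tendsto_nhds]
        intro ε hε
        filter_upwards [(tendsto_order.1 hlim0).2 ε hε] with n hn
        rw [Real.dist_eq, ← hGg x hx]
        exact (hgk2 n x).trans hn
      exact h3.congr (fun k => ((hUP k).2.2.1 x hx).symm)
    exact tendsto_nhds_unique h1 h2
  · intro v hv x hx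
    have h1 : ∀ k : ℕ, v x - 1 / ((k : ℝ) + 1) ≤ U k x := by
      intro k
      refine (hUP k).2.2.2 (fun x => v x - 1 / ((k : ℝ) + 1)) ⟨?_, ?_, ?_⟩ x hx
      · exact hv.1.sub continuousOn_const
      · have := (hA1 _ hball v v hv.2.1 hv.2.1).2.2.2.1 (-(1 / ((k : ℝ) + 1)))
        simpa [sub_eq_add_neg] using this
      · intro y hy
        have h2 := hv.2.2 y hy
        have h3 := hgk2 k y
        rw [hGg y hy, abs_lt] at h3
        linarith [h3.1]
    have h2 : Tendsto (fun k : ℕ => v x - 1 / ((k : ℝ) + 1)) atTop (𝓝 (v x - 0)) :=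
      tendsto_const_nhds.sub hlim0
    rw [sub_zero] at h2
    exact le_of_tendsto_of_tendsto' h2 (hlim x hx) h1
  · apply B9_Q_MAzero _ hball
    apply B9_lim hA1 hA5 hB8 u m hm0 (fun x hx => hm x (B9_bal_sub 0 1 hx))
    intro η hη
    obtain ⟨N, hN⟩ := exists_nat_one_div_lt hη
    exact ⟨U N, (hUP N).2.1, hUQ N, fun x hx => (hclose N x (B9_bal_sub 0 1 hx)).trans hN.le⟩

/-! ### scaling -/

/-- the affine map -/
def B9_T (c : C2) (r : ℝ) (x : C2) : C2 := c + r • x

theorem B9_nsq_smul (r : ℝ) (x : C2) : nsq (r • x) = r ^ 2 * nsq x := by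
  unfold nsq
  rw [Prod.smul_fst, Prod.smul_snd, norm_smul, norm_smul, Real.norm_eq_abs, mul_pow, mul_pow, sq_abs]
  ring

theorem B9_T_cont (c : C2) (r : ℝ) : Continuous (B9_T c r) := by
  unfold B9_T
  fun_prop

theorem B9_psh_comp (c : C2) (r : ℝ) (U V : Set C2) (hVU : MapsTo (B9_T c r) V U) (u : C2 → ℝ)
    (hu : PshOn U u) : PshOn V (fun x => u (B9_T c r x)) := by
  refine ⟨hu.1.comp (B9_T_cont c r).continuousOn hVU, fun x ξ hx => ?_⟩
  have h1 : disc (B9_T c r x) (r • ξ) ⊆ U := by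
    rintro y ⟨ζ, hζ, rfl⟩
    have h2 : x + ζ • ξ ∈ V := hx ⟨ζ, hζ, rfl⟩
    have h3 := hVU h2
    have h4 : B9_T c r (x + ζ • ξ) = B9_T c r x + ζ • (r • ξ) := by
      unfold B9_T
      rw [smul_add, smul_comm r ζ ξ]
      abel
    rwa [h4] at h3
  have h2 := hu.2 (B9_T c r x) (r • ξ) h1
  have h3 : mean (fun x => u (B9_T c r x)) x ξ = mean u (B9_T c r x) (r • ξ) := by
    unfold mean
    congr 1
    apply intervalIntegral.integral_congr
    intro θ _
    show u _ = u _
    congr 1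
    unfold B9_T
    rw [smul_add, smul_comm r (cexp (θ * I)) ξ]
    abel
  rw [h3]
  exact h2

theorem B9_fderiv (E : Type*) [NormedAddCommGroup E] [NormedSpace ℝ E] (c : C2) (r : ℝ) (f : C2 → E) (x : C2) :
    fderiv ℝ (fun y => f (B9_T c r y)) x = r • fderiv ℝ f (B9_T c r x) := by
  have h1 : (fun y => f (B9_T c r y)) = fun y => (fun z => f (c + z)) (r • y) := rfl
  rw [h1, fderiv_comp_smul (f := fun z => f (c + z)) (x := x) (c := r), fderiv_comp_add_left]
  rfl

theorem B9_D2 (c : C2) (r : ℝ) (f : C2 → ℝ) (x ξ η : C2) :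
    D2 (fun y => f (B9_T c r y)) x ξ η = r ^ 2 * D2 f (B9_T c r x) ξ η := by
  unfold D2
  have h1 : fderiv ℝ (fun y => f (B9_T c r y)) = fun y => r • fderiv ℝ f (B9_T c r y) := by
    funext y
    rw [B9_fderiv]
  have h2 : fderiv ℝ (fun y => r • fderiv ℝ f (B9_T c r y)) x =
      r • fderiv ℝ (fun y => fderiv ℝ f (B9_T c r y)) x :=
    congrFun (fderiv_const_smul_field (𝕜 := ℝ) (f := fun y => fderiv ℝ f (B9_T c r y)) r) x
  rw [h1, h2, B9_fderiv]
  simp only [smul_apply, smul_eq_mul]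
  ring

theorem B9_dens (c : C2) (r : ℝ) (f : C2 → ℝ) (x : C2) :
    dens (fun y => f (B9_T c r y)) (fun y => f (B9_T c r y)) x = r ^ 4 * dens f f (B9_T c r x) := by
  unfold dens hA hC hB hB' lap
  simp only [B9_D2]
  ring

theorem B9_int (c : C2) (r : ℝ) (hr : 0 < r) (F : C2 → ℝ) :
    ∫ x, r ^ 4 * F (B9_T c r x) = ∫ x, F x := by
  have : (volume : Measure C2).IsAddHaarMeasure := Measure.prod.instIsAddHaarMeasure volume volume
  rw [integral_const_mul]
  have h1 : ∫ x, F (B9_T c r x) = |(r ^ Module.finrank ℝ C2)⁻¹| • ∫ x, F (c + x) :=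
    Measure.integral_comp_smul volume (fun z => F (c + z)) r
  have h2 : Module.finrank ℝ C2 = 4 := by
    show Module.finrank ℝ (ℂ × ℂ) = 4
    rw [Module.finrank_prod, Complex.finrank_real_complex]
  rw [h1, h2, integral_add_left_eq_self, abs_of_nonneg (by positivity), smul_eq_mul, ← mul_assoc,
    mul_inv_cancel₀ (by positivity), one_mul]

theorem B9 (hA1 : A1_stmt) (hA2 : A2_stmt) (hA5 : A5_stmt) (hB1 : B1_stmt) (hB3 : B3_stmt)
    (hB4 : B4_stmt) (hB5 : B5_stmt) (hB6 : B6_stmt) (hB8 : B8_stmt) : B9_stmt := by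
  intro g c r hr hg
  have hr0 : r ≠ 0 := hr.ne'
  -- the inverse map
  set c' : C2 := -(r⁻¹ • c) with hc'
  have hTT' : ∀ x, B9_T c r (B9_T c' r⁻¹ x) = x := by
    intro x
    unfold B9_T
    rw [hc', smul_add, smul_neg, smul_smul, smul_smul, mul_inv_cancel₀ hr0, one_smul, one_smul]
    abel
  have hT'T : ∀ x, B9_T c' r⁻¹ (B9_T c r x) = x := by
    intro x
    unfold B9_T
    rw [hc', smul_add, smul_smul, inv_mul_cancel₀ hr0, one_smul]
    abel
  have hn : ∀ x, nsq (B9_T c r x - c) = r ^ 2 * nsq (x - 0) := by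
    intro x
    unfold B9_T
    rw [add_sub_cancel_left, B9_nsq_smul, sub_zero]
  have hn' : ∀ x, r ^ 2 * nsq (B9_T c' r⁻¹ x - 0) = nsq (x - c) := by
    intro x
    rw [← hn, hTT']
  have hr2 : 0 < r ^ 2 := by positivity
  have hball : MapsTo (B9_T c r) (bal 0 1) (bal c r) := by
    intro x hx
    have h1 : nsq (x - 0) < 1 ^ 2 := hx
    show nsq _ < _
    rw [hn]
    nlinarith
  have hcball : MapsTo (B9_T c r) (cbal 0 1) (cbal c r) := by
    intro x hx
    have h1 : nsq (x - 0) ≤ 1 ^ 2 := hx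
    show nsq _ ≤ _
    rw [hn]
    nlinarith
  have hsph : MapsTo (B9_T c r) (sph 0 1) (sph c r) := by
    intro x hx
    have h1 : nsq (x - 0) = 1 ^ 2 := hx
    show nsq _ = _
    rw [hn, h1]
    ring
  have hball' : MapsTo (B9_T c' r⁻¹) (bal c r) (bal 0 1) := by
    intro x hx
    have h1 : nsq (x - c) < r ^ 2 := hx
    show nsq _ < _
    rw [← hn'] at h1
    have := lt_of_mul_lt_mul_left (h1.trans_eq (mul_one _).symm) hr2.le
    rwa [one_pow]
  have hcball' : MapsTo (B9_T c' r⁻¹) (cbal c r) (cbal 0 1) := by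
    intro x hx
    have h1 : nsq (x - c) ≤ r ^ 2 := hx
    show nsq _ ≤ _
    rw [← hn'] at h1
    have := le_of_mul_le_mul_left (h1.trans_eq (mul_one _).symm) hr2
    rwa [one_pow]
  have hsph' : MapsTo (B9_T c' r⁻¹) (sph c r) (sph 0 1) := by
    intro x hx
    have h1 : nsq (x - c) = r ^ 2 := hx
    show nsq _ = _
    rw [← hn'] at h1
    have := mul_left_cancel₀ hr2.ne' (h1.trans (mul_one _).symm)
    rwa [one_pow]
  obtain ⟨u', ⟨hc1, hp1, hb1, hm1⟩, hMA⟩ := B9_unit hA1 hA2 hA5 hB1 hB3 hB4 hB5 hB6 hB8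
    (fun x => g (B9_T c r x)) (hg.comp (B9_T_cont c r).continuousOn hsph)
  refine ⟨fun x => u' (B9_T c' r⁻¹ x), ⟨?_, ?_, ?_, ?_⟩, ?_⟩
  · exact hc1.comp (B9_T_cont c' r⁻¹).continuousOn hcball'
  · exact B9_psh_comp c' r⁻¹ _ _ hball' u' hp1
  · intro x hx
    show u' _ = _
    rw [hb1 _ (hsph' hx)]
    show g _ = _
    rw [hTT']
  · intro v hv x hx
    have h1 := hm1 (fun y => v (B9_T c r y)) ⟨hv.1.comp (B9_T_cont c r).continuousOn hcball,
      B9_psh_comp c r _ _ hball v hv.2.1, fun y hy => hv.2.2 _ (hsph hy)⟩ (B9_T c' r⁻¹ x) (hcball' hx)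
    simpa only [hTT'] using h1
  · intro h hh hc hs w hw hwp hunif
    have hTcd : ContDiff ℝ ∞ (B9_T c r) := by
      unfold B9_T
      fun_prop
    let φ : C2 ≃ₜ C2 :=
      { toFun := B9_T c r
        invFun := B9_T c' r⁻¹
        left_inv := hT'T
        right_inv := hTT'
        continuous_toFun := B9_T_cont c r
        continuous_invFun := B9_T_cont c' r⁻¹ }
    have key := hMA (fun x => h (B9_T c r x)) (hh.comp hTcd) (hc.comp_homeomorph φ) (by
        intro x hx
        have h1 : B9_T c r x ∈ tsupport h :=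
          tsupport_comp_subset_preimage (f := B9_T c r) h (B9_T_cont c r) hx
        have h2 := hball' (hs h1)
        rwa [hT'T] at h2)
      (fun n x => w n (B9_T c r x)) (fun n => (hw n).comp hTcd.contDiffOn hball)
      (fun n => B9_psh_comp c r _ _ hball (w n) (hwp n)) (by
        intro K hK hKc
        have h1 := hunif (B9_T c r '' K) (by
          rintro _ ⟨y, hy, rfl⟩
          exact hball (hK hy)) (hKc.image (B9_T_cont c r))
        have h2 := h1.comp (B9_T c r)
        have h3 : (fun x => u' (B9_T c' r⁻¹ x)) ∘ (B9_T c r) = u' := by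
          funext x
          show u' _ = _
          rw [hT'T]
        rw [h3] at h2
        exact h2.mono (subset_preimage_image _ _))
    refine key.congr (fun n => ?_)
    have h4 : ∀ x, h (B9_T c r x) * dens (fun y => w n (B9_T c r y)) (fun y => w n (B9_T c r y)) x =
        r ^ 4 * (fun z => h z * dens (w n) (w n) z) (B9_T c r x) := by
      intro x
      rw [B9_dens]
      ring
    rw [integral_congr_ae (Eventually.of_forall h4)]
    exact B9_int c r hr (fun z => h z * dens (w n) (w n) z)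

end

end MAP
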