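import Mathlib
import Pool.Agent.helper50.MA.Spec2

/-!
# Project ma, module S5: smooth functions are multiples of omega-psh functions.
-/

set_option autoImplicit false

open MeasureTheory Set Filter Topology Complex
open scoped ContDiff Real

namespace MAP

noncomputable section

theorem S5_lap_smul (u : C2 → ℝ) (x ξ : C2) (t : ℝ) : lap u x (t • ξ) = t ^ 2 * lap u x ξ := by
  unfold lap D2
  rw [smul_comm I t ξ]
  simp only [map_smul, smul_apply, smul_eq_mul]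
  ring

theorem S5_lap_cont (U : Set C2) (hU : IsOpen U) (u : C2 → ℝ) (hu : ContDiffOn ℝ ∞ u U) :
    ContinuousOn (fun p : C2 × C2 => lap u p.1 p.2) (U ×ˢ univ) := by
  have h1 : ContDiffOn ℝ ∞ (fderiv ℝ u) U := hu.fderiv_of_isOpen hU (by simp)
  have h2 : ContDiffOn ℝ ∞ (fderiv ℝ (fderiv ℝ u)) U := h1.fderiv_of_isOpen hU (by simp)
  have h3 : ContinuousOn (fun p : C2 × C2 => fderiv ℝ (fderiv ℝ u) p.1) (U ×ˢ univ) :=
    h2.continuousOn.comp continuousOn_fst (fun p hp => hp.1)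
  unfold lap D2
  have h4 : ContinuousOn (fun p : C2 × C2 => p.2) (U ×ˢ univ) := continuousOn_snd
  have h5 : ContinuousOn (fun p : C2 × C2 => I • p.2) (U ×ˢ univ) := h4.const_smul I
  exact ((h3.clm_apply h4).clm_apply h4).add ((h3.clm_apply h5).clm_apply h5)

/-- comparison on compact sets -/
theorem S5_cmp (U K : Set C2) (hU : IsOpen U) (hK : IsCompact K) (hKU : K ⊆ U) (r u : C2 → ℝ)
    (hr : ContDiffOn ℝ ∞ r U) (hu : ContDiffOn ℝ ∞ u U)
    (hpos : ∀ y ∈ U, ∀ ξ : C2, ξ ≠ 0 → 0 < lap r y ξ) :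
    ∃ c : ℝ, 0 ≤ c ∧ ∀ y ∈ K, ∀ ξ : C2, |lap u y ξ| ≤ c * lap r y ξ := by
  have hS : IsCompact (K ×ˢ Metric.sphere (0 : C2) 1) := hK.prod (isCompact_sphere 0 1)
  have hsub : K ×ˢ Metric.sphere (0 : C2) 1 ⊆ U ×ˢ univ := fun p hp => ⟨hKU hp.1, mem_univ _⟩
  have hc : ContinuousOn (fun p : C2 × C2 => lap u p.1 p.2 / lap r p.1 p.2) (K ×ˢ Metric.sphere (0 : C2) 1) := by
    apply ((S5_lap_cont U hU u hu).mono hsub).div ((S5_lap_cont U hU r hr).mono hsub)
    intro p hp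
    have h1 : p.2 ≠ 0 := by
      intro h0
      have := hp.2
      rw [mem_sphere_zero_iff_norm, h0, norm_zero] at this
      exact zero_ne_one this
    exact (hpos p.1 (hKU hp.1) p.2 h1).ne'
  obtain ⟨C, hC⟩ := hS.exists_bound_of_continuousOn hc
  refine ⟨max C 0, le_max_right _ _, fun y hy ξ => ?_⟩
  by_cases hξ : ξ = 0
  · subst hξ
    have h0 : ∀ v : C2 → ℝ, lap v y 0 = 0 := by
      intro v
      have := S5_lap_smul v y 0 0
      simpa using this
    rw [h0, h0]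
    simp
  · have hn : ‖ξ‖ ≠ 0 := norm_ne_zero_iff.2 hξ
    set ξ₀ : C2 := ‖ξ‖⁻¹ • ξ with hξ₀
    have h1 : ξ = ‖ξ‖ • ξ₀ := by
      rw [hξ₀, smul_smul, mul_inv_cancel₀ hn, one_smul]
    have h2 : ξ₀ ∈ Metric.sphere (0 : C2) 1 := by
      rw [mem_sphere_zero_iff_norm, hξ₀, norm_smul, norm_inv, norm_norm, inv_mul_cancel₀ hn]
    have h3 : ξ₀ ≠ 0 := by
      intro h0
      rw [h0, smul_zero] at h1
      exact hξ h1
    have h4 := hC (y, ξ₀) ⟨hy, h2⟩
    have h5 := hpos y (hKU hy) ξ₀ h3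
    have h6 : |lap u y ξ₀| ≤ max C 0 * lap r y ξ₀ := by
      have h7 : |lap u y ξ₀ / lap r y ξ₀| ≤ max C 0 := h4.trans (le_max_left _ _)
      rw [abs_div, abs_of_pos h5, div_le_iff₀ h5] at h7
      exact h7
    have h8 : 0 ≤ ‖ξ‖ ^ 2 := sq_nonneg _
    have e1 : lap u y ξ = ‖ξ‖ ^ 2 * lap u y ξ₀ := by rw [← S5_lap_smul, ← h1]
    have e2 : lap r y ξ = ‖ξ‖ ^ 2 * lap r y ξ₀ := by rw [← S5_lap_smul, ← h1]
    rw [e1, e2, abs_mul, abs_of_nonneg h8]
    have h9 := mul_le_mul_of_nonneg_left h6 h8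
    calc ‖ξ‖ ^ 2 * |lap u y ξ₀| ≤ ‖ξ‖ ^ 2 * (max C 0 * lap r y ξ₀) := h9
      _ = max C 0 * (‖ξ‖ ^ 2 * lap r y ξ₀) := by ring

theorem S5_cbal_compact (c : C2) (r : ℝ) : IsCompact (cbal c r) := by
  have hc : Continuous nsq := by
    unfold nsq
    exact ((continuous_fst.norm).pow 2).add ((continuous_snd.norm).pow 2)
  have hcl : IsClosed (cbal c r) := by
    unfold cbal
    exact isClosed_le (hc.comp (continuous_id.sub continuous_const)) continuous_const
  apply Metric.isCompact_of_isClosed_isBounded hcl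
  apply (Metric.isBounded_iff_subset_closedBall c).2
  refine ⟨|r|, fun x hx => ?_⟩
  rw [Metric.mem_closedBall, dist_eq_norm]
  have h1 : nsq (x - c) ≤ r ^ 2 := hx
  have h2 : ‖x - c‖ ^ 2 ≤ nsq (x - c) := by
    unfold nsq
    rcases le_total ‖(x - c).1‖ ‖(x - c).2‖ with h | h
    · rw [Prod.norm_def, max_eq_right h]; nlinarith [sq_nonneg ‖(x - c).1‖]
    · rw [Prod.norm_def, max_eq_left h]; nlinarith [sq_nonneg ‖(x - c).2‖]
  exact abs_le_of_sq_le_sq' (by rw [sq_abs]; linarith) (abs_nonneg r) |>.2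

theorem S5 (hC2 : C2_stmt) (hS3 : S3_stmt) : S5_stmt := by
  intro X _ _ _ K h hh
  obtain ⟨-, hadd, hconst, -, -, hPS, -, -⟩ := hS3 X K
  have hsub : ∀ i, cbal (K.c i) (K.R i / 2) ⊆ (K.e i).target := by
    intro i y hy
    apply K.ball_sub i
    have h1 : nsq (y - K.c i) ≤ (K.R i / 2) ^ 2 := hy
    have h2 := K.R_pos i
    show nsq (y - K.c i) ≤ (K.R i) ^ 2
    nlinarith
  have key : ∀ i, ∃ c : ℝ, 0 ≤ c ∧ ∀ y ∈ cbal (K.c i) (K.R i / 2), ∀ ξ : C2,
      |lap (K.lo i h) y ξ| ≤ c * lap (K.ρ i) y ξ := fun i =>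
    S5_cmp (K.e i).target (cbal (K.c i) (K.R i / 2)) (K.e i).open_target (S5_cbal_compact _ _) (hsub i)
      (K.ρ i) (K.lo i h) (K.ρ_smooth i) (hh i) (K.ρ_pos i)
  choose c hc0 hc using key
  have hsum : ∀ i, c i ≤ ∑ j, c j := fun i =>
    Finset.single_le_sum (fun j _ => hc0 j) (Finset.mem_univ i)
  have hs0 : 0 ≤ ∑ j, c j := Finset.sum_nonneg (fun j _ => hc0 j)
  -- the general step
  have step : ∀ s : ℝ, |s| * (∑ j, c j) ≤ 1 → (fun x => s * h x) ∈ K.PS := by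
    intro s hs
    have hsm : K.Smo (fun x => s * h x) := (hadd (fun _ => s) h (hconst s) hh).2
    apply hPS _ hsm
    intro x
    obtain ⟨i, hxi, hxb⟩ := K.cover x
    refine ⟨i, hxi, fun ξ => ?_⟩
    have hyc : K.e i x ∈ cbal (K.c i) (K.R i / 2) := by
      have h1 : nsq (K.e i x - K.c i) < (K.R i / 2) ^ 2 := hxb
      exact h1.le
    have hyt : K.e i x ∈ (K.e i).target := hsub i hyc
    have hnhds : (K.e i).target ∈ 𝓝 (K.e i x) := (K.e i).open_target.mem_nhds hyt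
    have e1 : K.pot i (fun x => s * h x) = fun y => 1 * K.ρ i y + s * K.lo i h y := by
      funext y
      show K.ρ i y + s * h ((K.e i).symm y) = 1 * K.ρ i y + s * h ((K.e i).symm y)
      rw [one_mul]
    have e2 := (hC2.2.2.2.2.1 (K.ρ i) (K.lo i h) (K.ρ i) (K.e i x) 1 s
      ((((K.ρ_smooth i).contDiffAt hnhds)).of_le (WithTop.coe_le_coe.2 le_top))
      (((hh i).contDiffAt hnhds).of_le (WithTop.coe_le_coe.2 le_top))).1 ξ
    rw [e1, e2, one_mul]
    have h1 := hc i (K.e i x) hyc ξ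
    have h2 : 0 ≤ lap (K.ρ i) (K.e i x) ξ := by
      by_cases hξ : ξ = 0
      · have h0 : lap (K.ρ i) (K.e i x) 0 = 0 := by
          have := S5_lap_smul (K.ρ i) (K.e i x) 0 0
          simpa using this
        rw [hξ, h0]
      · exact (K.ρ_pos i _ hyt ξ hξ).le
    have h3 : |s * lap (K.lo i h) (K.e i x) ξ| ≤ lap (K.ρ i) (K.e i x) ξ := by
      rw [abs_mul]
      calc |s| * |lap (K.lo i h) (K.e i x) ξ| ≤ |s| * (c i * lap (K.ρ i) (K.e i x) ξ) :=
            mul_le_mul_of_nonneg_left h1 (abs_nonneg s)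
        _ ≤ |s| * ((∑ j, c j) * lap (K.ρ i) (K.e i x) ξ) :=
            mul_le_mul_of_nonneg_left (mul_le_mul_of_nonneg_right (hsum i) h2) (abs_nonneg s)
        _ = (|s| * (∑ j, c j)) * lap (K.ρ i) (K.e i x) ξ := by ring
        _ ≤ 1 * lap (K.ρ i) (K.e i x) ξ := mul_le_mul_of_nonneg_right hs h2
        _ = lap (K.ρ i) (K.e i x) ξ := one_mul _
    have h4 := (abs_le.1 h3).1
    linarith
  refine ⟨∑ j, c j + 1, by linarith, fun C' hC' => ?_⟩
  have hC'0 : 0 < C' := by linarith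
  have hb : |1 / C'| * (∑ j, c j) ≤ 1 := by
    rw [abs_of_pos (by positivity), one_div, inv_mul_le_iff₀ hC'0]
    linarith
  have hb' : |-(1 / C')| * (∑ j, c j) ≤ 1 := by rwa [abs_neg]
  constructor
  · have := step (1 / C') hb
    have e : (fun x => 1 / C' * h x) = fun x => h x / C' := by funext x; ring
    rwa [e] at this
  · have := step (-(1 / C')) hb'
    have e : (fun x => -(1 / C') * h x) = fun x => -(h x / C') := by funext x; ring
    rwa [e] at this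

end

end MAP
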