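import Mathlib
import Pool.Agent.helper50.MA.Spec3

/-!
# Project ma, module K0: existence of a circle-invariant smoothing kernel.
-/

set_option autoImplicit false

open MeasureTheory Set Filter Topology Complex
open scoped ContDiff Real

namespace MAP

noncomputable section

theorem K0_nsq_smooth : ContDiff ℝ ∞ nsq := by
  unfold nsq
  exact (contDiff_fst.norm_sq ℝ).add (contDiff_snd.norm_sq ℝ)

theorem K0 : K0_stmt := by
  set f : C2 → ℝ := fun y => expNegInvGlue (1 - nsq y) with hf
  have hfs : ContDiff ℝ ∞ f := expNegInvGlue.contDiff.comp (contDiff_const.sub K0_nsq_smooth)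
  have hf0 : ∀ y, 0 ≤ f y := fun y => expNegInvGlue.nonneg _
  have hfz : ∀ y, 1 ≤ nsq y → f y = 0 := fun y hy =>
    expNegInvGlue.zero_of_nonpos (by linarith)
  have hfc : HasCompactSupport f := by
    apply HasCompactSupport.intro (isCompact_closedBall (0 : C2) 1)
    intro y hy
    apply hfz
    rw [Metric.mem_closedBall, dist_zero_right, not_le] at hy
    have h1 : ‖y‖ ^ 2 ≤ nsq y := by
      unfold nsq
      rcases le_total ‖y.1‖ ‖y.2‖ with h | h
      · rw [Prod.norm_def, max_eq_right h]; nlinarith [sq_nonneg ‖y.1‖]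
      · rw [Prod.norm_def, max_eq_left h]; nlinarith [sq_nonneg ‖y.2‖]
    nlinarith
  have hne : f 0 ≠ 0 := by
    have h1 : 0 < f 0 := by
      apply expNegInvGlue.pos_of_pos
      have : nsq (0 : C2) = 0 := by unfold nsq; simp
      rw [this]
      norm_num
    exact h1.ne'
  have : (volume : Measure C2).IsAddHaarMeasure := Measure.prod.instIsAddHaarMeasure volume volume
  have hpos : 0 < ∫ y, f y :=
    hfs.continuous.integral_pos_of_hasCompactSupport_nonneg_nonzero hfc hf0 hne
  refine ⟨fun y => (∫ y, f y)⁻¹ * f y, contDiff_const.mul hfs, fun y => ?_, fun y hy => ?_, ?_, ?_⟩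
  · exact mul_nonneg (inv_nonneg.2 hpos.le) (hf0 y)
  · show (∫ y, f y)⁻¹ * f y = 0
    rw [hfz y hy, mul_zero]
  · rw [integral_const_mul, inv_mul_cancel₀ hpos.ne']
  · intro ζ y hζ
    have h1 : nsq (ζ • y) = nsq y := by
      unfold nsq
      rw [Prod.smul_fst, Prod.smul_snd, norm_smul, norm_smul, hζ, one_mul, one_mul]
    show (∫ y, f y)⁻¹ * expNegInvGlue (1 - nsq (ζ • y)) = (∫ y, f y)⁻¹ * expNegInvGlue (1 - nsq y)
    rw [h1]

end

end MAP
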