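import Mathlib
import Pool.Agent.helper50.MA.Spec3

/-!
# Project ma, module K3: the supremum over small balls hardly depends on the scale.
-/

set_option autoImplicit false

open MeasureTheory Set Filter Topology Complex
open scoped ContDiff Real

namespace MAP

noncomputable section

theorem K3_norm_le (x : C2) : ‖x‖ ^ 2 ≤ nsq x := by
  unfold nsq
  rcases le_total ‖x.1‖ ‖x.2‖ with h | h
  · rw [Prod.norm_def, max_eq_right h]; nlinarith [sq_nonneg ‖x.1‖]
  · rw [Prod.norm_def, max_eq_left h]; nlinarith [sq_nonneg ‖x.2‖]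

theorem K3_nsq_nonneg (x : C2) : 0 ≤ nsq x := by unfold nsq; positivity

theorem K3_nsq_smul (ζ : ℂ) (x : C2) : nsq (ζ • x) = ‖ζ‖ ^ 2 * nsq x := by
  unfold nsq
  rw [Prod.smul_fst, Prod.smul_snd, norm_smul, norm_smul, mul_pow, mul_pow]
  ring

theorem K3_nsq_cont : Continuous nsq := by
  unfold nsq
  exact ((continuous_fst.norm).pow 2).add ((continuous_snd.norm).pow 2)

theorem K3_cbal_compact (c : C2) (r : ℝ) : IsCompact (cbal c r) := by
  have hcl : IsClosed (cbal c r) := by
    unfold cbal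
    exact isClosed_le (K3_nsq_cont.comp (continuous_id.sub continuous_const)) continuous_const
  apply Metric.isCompact_of_isClosed_isBounded hcl
  apply (Metric.isBounded_iff_subset_closedBall c).2
  refine ⟨|r|, fun x hx => ?_⟩
  rw [Metric.mem_closedBall, dist_eq_norm]
  have h1 : nsq (x - c) ≤ r ^ 2 := hx
  have h2 := K3_norm_le (x - c)
  exact abs_le_of_sq_le_sq' (by rw [sq_abs]; linarith) (abs_nonneg r) |>.2

/-- a closed Euclidean neighbourhood of a compact set -/
theorem K3_nbhd (U K : Set C2) (hU : IsOpen U) (hK : IsCompact K) (hKU : K ⊆ U) :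
    ∃ (R : ℝ) (L : Set C2), 0 < R ∧ IsCompact L ∧ L ⊆ U ∧ ∀ x ∈ K, cbal x R ⊆ L := by
  obtain ⟨R, hR, hRU⟩ := hK.exists_cthickening_subset_open hU hKU
  refine ⟨R, Metric.cthickening R K, hR, hK.cthickening, hRU, fun x hx y hy => ?_⟩
  apply Metric.mem_cthickening_of_dist_le y x R K hx
  rw [dist_eq_norm]
  have h1 : nsq (y - x) ≤ R ^ 2 := hy
  have h2 := K3_norm_le (y - x)
  exact abs_le_of_sq_le_sq' (by linarith) hR.le |>.2

theorem K3 (hK1 : K1_stmt) : K3_stmt := by
  intro U K u A ε hU hu hK hKU hA hε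
  obtain ⟨R, L, hR, hL, hLU, hKL⟩ := K3_nbhd U K hU hK hKU
  obtain ⟨husc, hbdd, -⟩ := id hu
  obtain ⟨m0, hm0⟩ := hbdd L hLU hL
  set m : ℝ := max m0 0 with hm
  have hmn : 0 ≤ m := le_max_right _ _
  have hmL : ∀ y ∈ L, |u y| ≤ m := fun y hy => (hm0 y hy).trans (le_max_left _ _)
  have hA0 : 0 < A := by linarith
  have hlogA : 0 ≤ Real.log A := Real.log_nonneg hA
  refine ⟨min (R / A) (R * Real.exp (-(4 * m * Real.log A / ε))), lt_min (by positivity) (by positivity), ?_⟩
  intro δ hδ hδ0 x hx y hy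
  have hδ1 : A * δ < R := by
    have := hδ0.trans_le (min_le_left _ _)
    rw [lt_div_iff₀ hA0] at this
    linarith
  have hδ2 : δ < R * Real.exp (-(4 * m * Real.log A / ε)) := hδ0.trans_le (min_le_right _ _)
  by_cases hcase : nsq (y - x) ≤ (δ / A) ^ 2
  · exact ⟨y, hcase, by linarith⟩
  push Not at hcase
  set ρ : ℝ := Real.sqrt (nsq (y - x)) with hρ
  have hρ2 : ρ ^ 2 = nsq (y - x) := Real.sq_sqrt (K3_nsq_nonneg _)
  have hδA : 0 < δ / A := by positivity
  have hρ1 : δ / A < ρ := by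
    apply Real.lt_sqrt_of_sq_lt hcase
  have hρ3 : ρ ≤ A * δ := by
    apply Real.sqrt_le_iff.2 ⟨by positivity, hy⟩
  have hρ0 : 0 < ρ := hδA.trans hρ1
  have hρR : ρ < R := lt_of_le_of_lt hρ3 hδ1
  set ξ : C2 := (((R / ρ : ℝ)) : ℂ) • (y - x) with hξ
  have hnξ : nsq ξ = R ^ 2 := by
    rw [hξ, K3_nsq_smul, Complex.norm_real, Real.norm_eq_abs, sq_abs, ← hρ2]
    field_simp
  have hdisc : disc x ξ ⊆ U := by
    rintro z ⟨ζ, hζ, rfl⟩
    apply hLU
    apply hKL x hx
    show nsq (x + ζ • ξ - x) ≤ R ^ 2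
    rw [add_sub_cancel_left, K3_nsq_smul, hnξ]
    have : ‖ζ‖ ^ 2 ≤ 1 := by
      have := norm_nonneg ζ
      nlinarith
    nlinarith [sq_nonneg R]
  set s : ℝ := δ / (A * R) with hs
  have hs0 : 0 < s := by positivity
  have hs1 : s < 1 := by
    rw [hs, div_lt_one (by positivity)]
    nlinarith
  -- the maximum on the small ball
  have hcb : IsCompact (cbal x (δ / A)) := K3_cbal_compact _ _
  have hsub : cbal x (δ / A) ⊆ L := by
    intro z hz
    apply hKL x hx
    have h1 : nsq (z - x) ≤ (δ / A) ^ 2 := hz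
    show nsq (z - x) ≤ R ^ 2
    have h2 : δ / A ≤ R := (hρ1.trans hρR).le
    nlinarith
  obtain ⟨y', hy', hmax⟩ := (husc.mono (hsub.trans hLU)).exists_isMaxOn
    ⟨x, (by
      show nsq (x - x) ≤ (δ / A) ^ 2
      rw [sub_self]
      have : nsq (0 : C2) = 0 := by unfold nsq; simp
      rw [this]
      positivity : x ∈ cbal x (δ / A))⟩ hcb
  refine ⟨y', hy', ?_⟩
  have hyξ : y = x + (((ρ / R : ℝ)) : ℂ) • ξ := by
    rw [hξ, smul_smul, ← Complex.ofReal_mul]
    have : ρ / R * (R / ρ) = 1 := by field_simp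
    rw [this, Complex.ofReal_one, one_smul]
    abel
  have hns : ‖(((ρ / R : ℝ)) : ℂ)‖ = ρ / R := by
    rw [Complex.norm_real, Real.norm_eq_abs, abs_of_pos (by positivity)]
  have key := hK1.2 U u x ξ s (u y') m hU hu hdisc hs0 hs1
    (fun ζ hζ => by
      apply hmax
      show nsq (x + ζ • ξ - x) ≤ (δ / A) ^ 2
      rw [add_sub_cancel_left, K3_nsq_smul, hnξ, hζ, hs]
      apply le_of_eq
      field_simp)
    (fun ζ hζ => by
      apply (le_abs_self _).trans
      apply hmL
      apply hKL x hx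
      show nsq (x + ζ • ξ - x) ≤ R ^ 2
      rw [add_sub_cancel_left, K3_nsq_smul, hnξ, hζ]
      linarith)
    (((ρ / R : ℝ)) : ℂ)
    (by
      rw [hns, hs, div_le_div_iff₀ (by positivity) hR]
      have h1 : δ < ρ * A := by
        rwa [div_lt_iff₀ hA0] at hρ1
      nlinarith)
    (by rw [hns, div_le_one hR]; exact hρR.le)
  rw [← hyξ, hns] at key
  refine key.trans ?_
  -- the logarithms
  have hratio : ρ / R / s ≤ A ^ 2 := by
    have h1 : ρ / R / s = ρ * A / δ := by
      rw [hs]
      field_simp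
    rw [h1, div_le_iff₀ hδ]
    nlinarith
  have hratio0 : 0 < ρ / R / s := by positivity
  have hlog1 : Real.log (ρ / R / s) ≤ 2 * Real.log A := by
    have := Real.log_le_log hratio0 hratio
    rwa [Real.log_pow, Nat.cast_ofNat] at this
  have hlog0 : 0 ≤ Real.log (ρ / R / s) := by
    apply Real.log_nonneg
    have h1 : ρ / R / s = ρ * A / δ := by
      rw [hs]
      field_simp
    rw [h1, one_le_div hδ]
    have h1 : δ < ρ * A := by
      rwa [div_lt_iff₀ hA0] at hρ1
    exact h1.le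
  have hL0 : 0 < Real.log (1 / s) := Real.log_pos (by rw [lt_div_iff₀ hs0]; linarith)
  have hL1 : 4 * m * Real.log A / ε ≤ Real.log (1 / s) := by
    rw [Real.le_log_iff_exp_le (by positivity)]
    have h1 : δ * Real.exp (4 * m * Real.log A / ε) < R := by
      have h2 : R * Real.exp (-(4 * m * Real.log A / ε)) * Real.exp (4 * m * Real.log A / ε) = R := by
        rw [mul_assoc, ← Real.exp_add, neg_add_cancel, Real.exp_zero, mul_one]
      calc δ * Real.exp (4 * m * Real.log A / ε) <
            R * Real.exp (-(4 * m * Real.log A / ε)) * Real.exp (4 * m * Real.log A / ε) :=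
            mul_lt_mul_of_pos_right hδ2 (Real.exp_pos _)
        _ = R := h2
    have h3 : 1 / s = A * R / δ := by
      rw [hs, one_div_div]
    rw [h3, le_div_iff₀ hδ]
    nlinarith [Real.exp_pos (4 * m * Real.log A / ε)]
  have hfrac : Real.log (ρ / R / s) / Real.log (1 / s) ≤ 2 * Real.log A / Real.log (1 / s) := by
    gcongr
  have hb : 0 ≤ m - u y' ∧ m - u y' ≤ 2 * m := by
    have := abs_le.1 (hmL y' (hsub hy'))
    constructor <;> linarith [this.1, this.2]
  have hfin : (m - u y') * (Real.log (ρ / R / s) / Real.log (1 / s)) ≤ ε := by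
    have h1 : 0 ≤ Real.log (ρ / R / s) / Real.log (1 / s) := by positivity
    calc (m - u y') * (Real.log (ρ / R / s) / Real.log (1 / s))
        ≤ (2 * m) * (Real.log (ρ / R / s) / Real.log (1 / s)) := mul_le_mul_of_nonneg_right hb.2 h1
      _ ≤ (2 * m) * (2 * Real.log A / Real.log (1 / s)) := by
          apply mul_le_mul_of_nonneg_left hfrac (by positivity)
      _ = (4 * m * Real.log A) / Real.log (1 / s) := by ring
      _ ≤ ε := by
          rw [div_le_iff₀ hL0]
          rw [div_le_iff₀ hε] at hL1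
          linarith
  linarith

end

end MAP
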